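import Pool.Agent.H1.RT.All

set_option autoImplicit false

/-!
Classification of the finite rational 2-groups with at most three generators: there are exactly 30
of them up to isomorphism, and the largest have order 256.
-/

namespace Pool.Agent.Results.MP_cc8356_al.ThreeGenerators

/-- Rational groups: two elements which generate the same cyclic subgroup are conjugate. -/
def IsRational (G : Type) [Group G] : Prop :=
  ∀ x y : G, Subgroup.zpowers x = Subgroup.zpowers y → IsConj x y

/-- The group is generated by at most `d` elements. -/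
def Generated (d : ℕ) (G : Type) [Group G] : Prop :=
  ∃ s : Finset G, s.card ≤ d ∧ Subgroup.closure (s : Set G) = ⊤

/-- The exponents of the orders: one group each of order 1, 2, 4, and 3, 2, 5, 6, 9, 2 groups of
order 8, 16, 32, 64, 128, 256. -/
def exponents : List ℕ :=
  [0, 1, 2, 3, 3, 3, 4, 4, 5, 5, 5, 5, 5, 6, 6, 6, 6, 6, 6, 7, 7, 7, 7, 7, 7, 7, 7, 7, 8, 8]

open Pool.Agent.H1.RT in
private theorem main {G : Type} [Group G] [Finite G] (hp : IsPGroup 2 G) (hr : IsRational G)
    (hg : Generated 3 G) : ∃ c < 30, HasTab G (nd c).N (nd c).R := by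
  obtain ⟨s, hs, hc⟩ := hg
  exact all_groups (Nat.card G) G le_rfl hp (rat2_of_rational hp hr)
    ((Group.rank_le hc).trans hs)

open Pool.Agent.H1.RT in
private theorem exps : ∀ c < 30, exponents.getD c 0 = (nd c).N := by decide +kernel

/-- **Theorem.** A finite rational 2-group generated by at most three elements has order at most
256. Up to isomorphism there are exactly 30 such groups, with the orders given by `exponents`. -/
theorem result :
    (∀ (H : Type) [Group H] [Finite H], IsPGroup 2 H → IsRational H → Generated 3 H →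
      Nat.card H ≤ 256) ∧
    ∃ (G : Fin 30 → Type) (_ : ∀ i, Group (G i)) (_ : ∀ i, Finite (G i)),
      (∀ i, IsPGroup 2 (G i) ∧ IsRational (G i) ∧ Generated 3 (G i) ∧
        Nat.card (G i) = 2 ^ exponents.getD i 0) ∧
      (∀ i j, Nonempty (G i ≃* G j) → i = j) ∧
      ∀ (H : Type) [Group H] [Finite H], IsPGroup 2 H → IsRational H → Generated 3 H →
        ∃ i, Nonempty (H ≃* G i) := by
  constructor
  · intro H _ _ hp hr hg
    obtain ⟨c, hc, h⟩ := main hp hr hg
    rw [h.card]
    exact (Nat.pow_le_pow_right (by norm_num) (Pool.Agent.H1.RT.N_le c hc)).trans (by norm_num)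
  · choose G hG hF htab hrat hexp hgen using fun i : Fin 30 =>
      Pool.Agent.H1.RT.exists_group (Pool.Agent.H1.RT.nd i) (Pool.Agent.H1.RT.good_all i i.2)
        (Pool.Agent.H1.RT.ex_all i i.2)
    refine ⟨G, hG, hF, fun i => ⟨?_, ?_, ?_, ?_⟩, ?_, ?_⟩
    · letI := hG i
      exact IsPGroup.of_card (htab i).card
    · letI := hG i
      exact Pool.Agent.H1.RT.rational_of_rat2 (hrat i) (hexp i)
    · letI := hG i
      exact hgen i
    · letI := hG i
      rw [(htab i).card, exps i i.2]
    · rintro i j ⟨e⟩
      have h1 := Pool.Agent.H1.RT.invs_congr e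
      rw [Pool.Agent.H1.RT.invs_eq (Pool.Agent.H1.RT.good_all i i.2) (htab i),
        Pool.Agent.H1.RT.invs_eq (Pool.Agent.H1.RT.good_all j j.2) (htab j),
        Pool.Agent.H1.RT.tinvs_of_invb (Pool.Agent.H1.RT.in_all i i.2),
        Pool.Agent.H1.RT.tinvs_of_invb (Pool.Agent.H1.RT.in_all j j.2)] at h1
      exact Fin.ext (Pool.Agent.H1.RT.vals_inj i i.2 j j.2 h1)
    · intro H _ _ hp hr hg
      obtain ⟨c, hc, h⟩ := main hp hr hg
      exact ⟨⟨c, hc⟩, h.iso (Pool.Agent.H1.RT.good_all c hc) (htab ⟨c, hc⟩)⟩

end Pool.Agent.Results.MP_cc8356_al.ThreeGenerators
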